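import Pool.Agent.Lib_helper1.TFS.Main

set_option autoImplicit false

open scoped ENNReal Cardinal

namespace Pool.Agent.Results.MP_76068a_an.ContinuumMany

/-- the Hilbert space `ℓ²(Γ)` -/
abbrev ell2 (Γ : Type) : Type := lp (fun _ : Γ => ℂ) 2

/-- `{λ(g) : g ∈ Γ}`: the operators `λ(g)` of the left regular representation of `Γ` on `ℓ²(Γ)`,
`(λ(g) ξ)(h) = ξ(g⁻¹ h)`. -/
def leftRegular (Γ : Type) [Group Γ] : Set (ell2 Γ →L[ℂ] ell2 Γ) :=
  {T | ∃ g : Γ, ∀ (ξ : ell2 Γ) (h : Γ), T ξ h = ξ (g⁻¹ * h)}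

/-- the norm closure of the linear span of a set of bounded operators on a Hilbert space -/
def closedSpan {H : Type} [NormedAddCommGroup H] [InnerProductSpace ℂ H]
    (S : Set (H →L[ℂ] H)) : Set (H →L[ℂ] H) :=
  closure (Submodule.span ℂ S : Set (H →L[ℂ] H))

/-- `Φ` is a *-isomorphism from the set `C` of operators onto the set `D` of operators. -/
structure IsStarIso {H K : Type} [NormedAddCommGroup H] [InnerProductSpace ℂ H]
    [CompleteSpace H] [NormedAddCommGroup K] [InnerProductSpace ℂ K] [CompleteSpace K]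
    (C : Set (H →L[ℂ] H)) (D : Set (K →L[ℂ] K)) (Φ : (H →L[ℂ] H) → (K →L[ℂ] K)) : Prop where
  /-- `Φ` is a bijection from `C` to `D`. -/
  bij : Set.BijOn Φ C D
  /-- `Φ` is additive. -/
  add : ∀ x ∈ C, ∀ y ∈ C, Φ (x + y) = Φ x + Φ y
  /-- `Φ` is linear over the complex numbers. -/
  smul : ∀ (c : ℂ), ∀ x ∈ C, Φ (c • x) = c • Φ x
  /-- `Φ` is multiplicative. -/
  mul : ∀ x ∈ C, ∀ y ∈ C, Φ (x * y) = Φ x * Φ y
  /-- `Φ` respects adjoints. -/
  adj : ∀ x ∈ C, Φ (ContinuousLinearMap.adjoint x) = ContinuousLinearMap.adjoint (Φ x)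

/-- The reduced group C*-algebras of `Γ` and `Γ'` (the norm closures of the linear spans of the
operators of the left regular representations) are *-isomorphic. -/
def ReducedIso (Γ Γ' : Type) [Group Γ] [Group Γ'] : Prop :=
  ∃ Φ, IsStarIso (closedSpan (leftRegular Γ)) (closedSpan (leftRegular Γ')) Φ

lemma leftRegular_eq (Γ : Type) [Group Γ] :
    leftRegular Γ = Set.range (TFS.lam : Γ → TFS.BL Γ) :=
  TFS.setOf_translation_eq

lemma span_eq (Γ : Type) [Group Γ] :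
    ((Submodule.span ℂ (leftRegular Γ) : Submodule ℂ (ell2 Γ →L[ℂ] ell2 Γ)) :
    Set (ell2 Γ →L[ℂ] ell2 Γ)) = (StarAlgebra.adjoin ℂ (leftRegular Γ) :
      StarSubalgebra ℂ (ell2 Γ →L[ℂ] ell2 Γ)) := by
  have hstar : star (leftRegular Γ) = leftRegular Γ := by
    rw [leftRegular_eq]
    ext T
    rw [Set.mem_star]
    constructor
    · rintro ⟨g, hg⟩
      refine ⟨g⁻¹, ?_⟩
      rw [← TFS.star_lam, hg, star_star]
    · rintro ⟨g, rfl⟩
      exact ⟨g⁻¹, (TFS.star_lam g).symm⟩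
  have h1 : (StarAlgebra.adjoin ℂ (leftRegular Γ)).toSubalgebra =
      Algebra.adjoin ℂ (leftRegular Γ) := by
    rw [StarAlgebra.adjoin_toSubalgebra, hstar, Set.union_self]
  have h2 : Submonoid.closure (leftRegular Γ) = MonoidHom.mrange
      (⟨⟨(TFS.lam : Γ → TFS.BL Γ), TFS.lam_one⟩, TFS.lam_mul⟩ : Γ →* TFS.BL Γ) := by
    rw [leftRegular_eq]
    rw [← Submonoid.closure_eq (MonoidHom.mrange
      (⟨⟨(TFS.lam : Γ → TFS.BL Γ), TFS.lam_one⟩, TFS.lam_mul⟩ : Γ →* TFS.BL Γ))]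
    rfl
  have h3 : Subalgebra.toSubmodule (Algebra.adjoin ℂ (leftRegular Γ)) =
      Submodule.span ℂ (leftRegular Γ) := by
    rw [Algebra.adjoin_eq_span, h2, leftRegular_eq]
    rfl
  rw [← h3, ← h1]
  rfl

lemma Cr_coe (Γ : Type) [Group Γ] : (TFS.Cr Γ : Set (ell2 Γ →L[ℂ] ell2 Γ)) =
    closure (Submodule.span ℂ (leftRegular Γ) : Set (ell2 Γ →L[ℂ] ell2 Γ)) := by
  rw [span_eq]
  unfold TFS.Cr
  rw [StarSubalgebra.topologicalClosure_coe, leftRegular_eq]

lemma isStarIso_of_equiv {H K : Type} [NormedAddCommGroup H] [InnerProductSpace ℂ H]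
    [CompleteSpace H] [NormedAddCommGroup K] [InnerProductSpace ℂ K] [CompleteSpace K]
    (A : StarSubalgebra ℂ (H →L[ℂ] H)) (B : StarSubalgebra ℂ (K →L[ℂ] K)) (e : A ≃⋆ₐ[ℂ] B) :
    ∃ Φ, IsStarIso (A : Set (H →L[ℂ] H)) (B : Set (K →L[ℂ] K)) Φ := by
  classical
  let Φ : (H →L[ℂ] H) → (K →L[ℂ] K) := fun x =>
    if hx : x ∈ A then (e ⟨x, hx⟩ : K →L[ℂ] K) else 0
  have hΦ : ∀ x (hx : x ∈ A), Φ x = (e ⟨x, hx⟩ : K →L[ℂ] K) :=
    fun x hx => dif_pos hx
  refine ⟨Φ, ⟨?_, ?_, ?_⟩, ?_, ?_, ?_, ?_⟩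
  · intro x hx
    rw [hΦ x hx]
    exact (e ⟨x, hx⟩).2
  · intro x hx y hy hxy
    rw [hΦ x hx, hΦ y hy] at hxy
    have h1 := e.injective (Subtype.ext hxy)
    exact congrArg Subtype.val h1
  · intro y hy
    refine ⟨(e.symm ⟨y, hy⟩ : H →L[ℂ] H), (e.symm ⟨y, hy⟩).2, ?_⟩
    rw [hΦ _ (e.symm ⟨y, hy⟩).2]
    exact congrArg Subtype.val (e.apply_symm_apply ⟨y, hy⟩)
  · intro x hx y hy
    rw [hΦ x hx, hΦ y hy, hΦ _ (add_mem hx hy)]
    exact congrArg Subtype.val (map_add e ⟨x, hx⟩ ⟨y, hy⟩)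
  · intro c x hx
    have hcx : c • x ∈ A := A.smul_mem hx c
    rw [hΦ x hx, hΦ _ hcx]
    exact congrArg Subtype.val (map_smul e c (⟨x, hx⟩ : A))
  · intro x hx y hy
    rw [hΦ x hx, hΦ y hy, hΦ _ (mul_mem hx hy)]
    exact congrArg Subtype.val (map_mul e ⟨x, hx⟩ ⟨y, hy⟩)
  · intro x hx
    have h1 : ContinuousLinearMap.adjoint x ∈ A := star_mem hx
    rw [hΦ x hx, hΦ _ h1]
    exact congrArg Subtype.val (map_star e (⟨x, hx⟩ : A))

lemma reducedIso_of_equiv (Γ Γ' : Type) [Group Γ] [Group Γ']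
    (h : Nonempty (TFS.Cr Γ ≃⋆ₐ[ℂ] TFS.Cr Γ')) : ReducedIso Γ Γ' := by
  obtain ⟨e⟩ := h
  have hC : closedSpan (leftRegular Γ) = (TFS.Cr Γ : Set (ell2 Γ →L[ℂ] ell2 Γ)) := (Cr_coe Γ).symm
  have hD : closedSpan (leftRegular Γ') = (TFS.Cr Γ' : Set (ell2 Γ' →L[ℂ] ell2 Γ')) :=
    (Cr_coe Γ').symm
  unfold ReducedIso
  rw [hC, hD]
  exact isStarIso_of_equiv _ _ e

/-- `Γ` is torsion-free: the identity is its only element of finite order. -/
def TorsionFree (Γ : Type) [Group Γ] : Prop := ∀ g : Γ, IsOfFinOrder g → g = 1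

/-- `Γ` is simple: it is nontrivial and its only normal subgroups are `{e}` and `Γ`. -/
def Simple (Γ : Type) [Group Γ] : Prop :=
  Nontrivial Γ ∧ ∀ N : Subgroup Γ, N.Normal → N = ⊥ ∨ N = ⊤

open TFS TFS.SubD

/-- all limits of a tower: in each isomorphism class there are only countably many `ε`. -/
lemma countable_class (T : Tower) (Γ : (ℕ → Bool) → Type) [∀ ε, Group (Γ ε)]
    (ι : ∀ ε k, (T.S k).G →* Γ ε) (h : ∀ ε, IsLim (T.c ε) (ι ε)) (ε₀ : ℕ → Bool) :
    Set.Countable {ε : ℕ → Bool | Nonempty (Γ ε₀ ≃* Γ ε)} := by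
  let X := {ε : ℕ → Bool | Nonempty (Γ ε₀ ≃* Γ ε)}
  let θ : ∀ ε : X, Γ ε₀ ≃* Γ ε.1 := fun ε => ε.2.some
  have := countable_lim (h ε₀)
  have hinj : Function.Injective (fun ε : X => (θ ε).symm (ι ε.1 0 (zz T ε.1 0))) := by
    have key : ∀ (ε : X) (k : ℕ),
        PP (qq k) ((θ ε).symm (ι ε.1 0 (zz T ε.1 0))) ↔ ε.1 k = true := by
      intro ε k
      rw [← main_iff (h ε.1) k]
      constructor
      · intro hP
        have := hP.map (θ ε).toMonoidHom (θ ε).injective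
        simpa using this
      · intro hP
        exact hP.map (θ ε).symm.toMonoidHom (θ ε).symm.injective
    intro ε ε' hεε
    apply Subtype.ext
    funext k
    have h1 := key ε k
    have h2 := key ε' k
    have hεε' : (θ ε).symm (ι ε.1 0 (zz T ε.1 0)) = (θ ε').symm (ι ε'.1 0 (zz T ε'.1 0)) := hεε
    rw [hεε', h2] at h1
    exact Bool.eq_iff_iff.mpr h1.symm
  exact Set.countable_coe_iff.1 hinj.countable

/-- a map from a set of size continuum with countable fibres has an image of size continuum -/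
lemma mk_quotient (r : Setoid (ℕ → Bool)) (hr : ∀ ε₀, Set.Countable {ε | r ε₀ ε}) :
    #(Quotient r) = 𝔠 := by
  have hc : #(ℕ → Bool) = 𝔠 := by
    rw [← Cardinal.power_def, Cardinal.mk_bool, Cardinal.mk_nat, Cardinal.two_power_aleph0]
  apply le_antisymm
  · rw [← hc]
    exact Cardinal.mk_le_of_surjective (Quotient.mk_surjective (s := r))
  · by_contra hlt
    push Not at hlt
    have h1 : #(ℕ → Bool) ≤ #(Quotient r) * ℵ₀ := by
      apply Cardinal.mk_le_mk_mul_of_mk_preimage_le (Quotient.mk r)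
      intro q
      induction q using Quotient.inductionOn with
      | h ε₀ =>
        rw [Cardinal.mk_le_aleph0_iff]
        refine Set.Countable.mono ?_ (hr ε₀)
        intro ε hε
        have : Quotient.mk r ε = Quotient.mk r ε₀ := hε
        exact r.iseqv.symm (Quotient.exact this)
    rw [hc] at h1
    have h2 : #(Quotient r) * ℵ₀ < 𝔠 :=
      Cardinal.mul_lt_of_lt Cardinal.aleph0_le_continuum hlt Cardinal.aleph0_lt_continuum
    exact absurd h1 (not_le.2 h2)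

/-- **Torsion-free simple groups with isomorphic reduced group C*-algebras.**
There is a family `(Γ x)`, indexed by the real numbers `x`, of countable torsion-free simple groups
which are pairwise non-isomorphic, while all their reduced group C*-algebras are isomorphic. -/
theorem result :
    ∃ (Γ : ℝ → Type) (_ : ∀ x, Group (Γ x)),
      (∀ x, Countable (Γ x) ∧ TorsionFree (Γ x) ∧ Simple (Γ x)) ∧
      (∀ x y, x ≠ y → ¬ Nonempty (Γ x ≃* Γ y)) ∧
      ∀ x y, ReducedIso (Γ x) (Γ y) := by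
  obtain ⟨T⟩ := exists_tower
  have hex : ∀ ε : ℕ → Bool, ∃ (Γ : Type) (_ : Group Γ) (ι : ∀ k, (T.S k).G →* Γ),
      IsLim (T.c ε) ι := fun ε =>
    exists_limit (fun k => (T.S k).G) (T.c ε) (fun k => (T.st k).c_injective _)
  choose Γ gΓ ι h using hex
  let r : Setoid (ℕ → Bool) :=
    { r := fun ε ε' => Nonempty (Γ ε ≃* Γ ε')
      iseqv := ⟨fun ε => ⟨MulEquiv.refl _⟩, fun ⟨e⟩ => ⟨e.symm⟩, fun ⟨e⟩ ⟨e'⟩ => ⟨e.trans e'⟩⟩ }
  have hcard := mk_quotient r (fun ε₀ => countable_class T Γ ι h ε₀)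
  rw [← Cardinal.mk_real, Cardinal.eq] at hcard
  obtain ⟨e⟩ := hcard
  let sec : ℝ → (ℕ → Bool) := fun x => (e.symm x).out
  refine ⟨fun x => Γ (sec x), fun x => gΓ (sec x), ?_, ?_, ?_⟩
  · intro x
    refine ⟨countable_lim (h _), ?_, ?_⟩
    · intro g hg
      by_contra hne
      exact (h (sec x)).torsionFree (fun k => (T.S k).tG) g hne hg
    · have hs := T.isSimpleGroup _ (h (sec x))
      exact ⟨hs.toNontrivial, fun N hN => hs.eq_bot_or_eq_top_of_normal N hN⟩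
  · intro x y hxy hiso
    apply hxy
    have h1 : Quotient.mk r (sec x) = Quotient.mk r (sec y) := Quotient.sound hiso
    have h2 : Quotient.mk r (sec x) = e.symm x := Quotient.out_eq _
    have h3 : Quotient.mk r (sec y) = e.symm y := Quotient.out_eq _
    rw [h2, h3] at h1
    exact e.symm.injective h1
  · intro x y
    exact reducedIso_of_equiv _ _ (T.cr_equiv _ _ (h _) (h _))

end Pool.Agent.Results.MP_76068a_an.ContinuumMany
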